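import Mathlib

/-! Block ETL-S3 (helper26): an identity in idempotent commutative semirings. -/

set_option autoImplicit false

namespace Pool.Agent.Helper58.ETL

/-- ETL-S3 (identity in idempotent commutative semirings). -/
theorem sum_prod_erase {R ι : Type*} [IdemCommSemiring R] [DecidableEq ι] (s : Finset ι)
    (hs : s.Nonempty) (H : ι → R) (U : R)
    (h : ∀ i ∈ s, ∀ j ∈ s, i ≠ j → H i + H j = U) :
    ∑ i ∈ s, ∏ j ∈ s.erase i, H j = U ^ (s.card - 1) := by
  induction s using Finset.strongInduction with
  | H s ih =>
    rcases Nat.lt_or_ge 1 s.card with hc | hc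
    · obtain ⟨y, hy, z, hz, hyz⟩ := Finset.one_lt_card.mp hc
      have hle : ∀ i ∈ s, H i ≤ U := by
        intro i hi
        obtain ⟨j, hj, hij⟩ : ∃ j ∈ s, i ≠ j := by
          by_cases h1 : i = y
          · exact ⟨z, hz, h1 ▸ hyz⟩
          · exact ⟨y, hy, h1⟩
        rw [← h i hi j hj hij, add_eq_sup]
        exact le_sup_left
      apply le_antisymm
      · have h1 : ∀ i ∈ s, ∏ j ∈ s.erase i, H j ≤ U ^ (s.card - 1) := by
          intro i hi
          rw [← Finset.card_erase_of_mem hi, ← Finset.prod_const]
          exact Finset.prod_le_prod' fun j hj => hle j (Finset.mem_of_mem_erase hj)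
        have h2 : ∀ t : Finset ι, t ⊆ s →
            ∑ i ∈ t, ∏ j ∈ s.erase i, H j ≤ U ^ (s.card - 1) := by
          intro t
          induction t using Finset.induction_on with
          | empty =>
            intro _
            rw [Finset.sum_empty]
            exact zero_le
          | insert a t ha iht =>
            intro hat
            rw [Finset.sum_insert ha, add_eq_sup]
            exact sup_le (h1 a (hat (Finset.mem_insert_self a t)))
              (iht fun x hx => hat (Finset.mem_insert_of_mem hx))
        exact h2 s subset_rfl
      · have key : ∀ z ∈ s, H z * U ^ (s.card - 2) ≤ ∑ i ∈ s, ∏ j ∈ s.erase i, H j := by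
          intro z hz
          have hne : (s.erase z).Nonempty := by
            rw [← Finset.card_pos, Finset.card_erase_of_mem hz]
            omega
          have h1 := ih (s.erase z) (Finset.erase_ssubset hz) hne
            (fun i hi j hj hij => h i (Finset.mem_of_mem_erase hi) j (Finset.mem_of_mem_erase hj) hij)
          rw [Finset.card_erase_of_mem hz] at h1
          have h2 : s.card - 2 = s.card - 1 - 1 := by omega
          rw [h2, ← h1, Finset.mul_sum, ← Finset.add_sum_erase s _ hz, add_eq_sup]
          refine le_trans (le_of_eq ?_) le_sup_right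
          apply Finset.sum_congr rfl
          intro i hi
          have h3 : (s.erase z).erase i = (s.erase i).erase z := Finset.erase_right_comm
          have h4 : z ∈ s.erase i :=
            Finset.mem_erase.mpr ⟨(Finset.ne_of_mem_erase hi).symm, hz⟩
          rw [h3, Finset.mul_prod_erase _ _ h4]
        have h5 : U ^ (s.card - 1) = H y * U ^ (s.card - 2) + H z * U ^ (s.card - 2) := by
          rw [← add_mul, h y hy z hz hyz, ← pow_succ']
          congr 1
          omega
        rw [h5, add_eq_sup]
        exact sup_le (key y hy) (key z hz)
    · have hc1 : s.card = 1 := le_antisymm hc (Finset.card_pos.mpr hs)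
      obtain ⟨a, rfl⟩ := Finset.card_eq_one.mp hc1
      simp

end Pool.Agent.Helper58.ETL
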